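import Pool.Agent.EDG.StmtsC

/-!
EDG, row BIG: every component of the curve of periodic points is big.
-/

set_option autoImplicit false

open Polynomial

namespace Pool.Agent.EDG.H77

open Pool.Agent.EDG.C

theorem res_mul {S : Type} [CommRing S] (R g₁ g₂ : S[X]) (h₁ : g₁.Monic) (h₂ : g₂.Monic) :
    resultant R (g₁ * g₂) = resultant R g₁ * resultant R g₂ := by
  have h := resultant_mul_right R g₁ g₂ R.natDegree le_rfl
  rw [← h₁.natDegree_mul h₂] at h
  exact h

theorem res_prod {S : Type} [CommRing S] {ι : Type} (R : S[X]) (f : ι → S[X])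
    (hf : ∀ i, (f i).Monic) (s : Finset ι) :
    resultant R (∏ i ∈ s, f i) = ∏ i ∈ s, resultant R (f i) := by
  classical
  induction s using Finset.induction_on with
  | empty =>
    rw [Finset.prod_empty, Finset.prod_empty, resultant_one_right, natDegree_one, pow_zero]
  | insert a s ha ih =>
    rw [Finset.prod_insert ha, Finset.prod_insert ha, res_mul _ _ _ (hf a)
      (monic_prod_of_monic _ _ fun i _ => hf i), ih]

theorem res_prod' {S : Type} [CommRing S] {ι : Type} (R : S[X]) (f : ι → S[X]) (s : Finset ι)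
    (hf : ∀ i ∈ s, (f i).Monic) :
    resultant R (∏ i ∈ s, f i) = ∏ i ∈ s, resultant R (f i) := by
  classical
  induction s using Finset.induction_on with
  | empty =>
    rw [Finset.prod_empty, Finset.prod_empty, resultant_one_right, natDegree_one, pow_zero]
  | insert a s ha ih =>
    rw [Finset.prod_insert ha, Finset.prod_insert ha,
      res_mul _ _ _ (hf a (Finset.mem_insert_self a s))
      (monic_prod_of_monic _ _ fun i hi => hf i (Finset.mem_insert_of_mem hi)),
      ih fun i hi => hf i (Finset.mem_insert_of_mem hi)]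

theorem big (evi : EviStmt) (grl : GrlStmt) (dis : DisStmt) (low : LowStmt) (fac : FacStmt)
    (ncz : NczStmt) (rcn : RcnStmt) : BigStmt := by
  intro n m R hn hR hdvd he hres hm
  obtain ⟨Cf, hCf⟩ := id hdvd
  obtain ⟨Q, L, hQL, hQ, hL, hLd, hk⟩ := fac n R Cf hn hR hCf.symm hres
  have hn0 : n ≠ 0 := hn.ne'
  have hRQL : R * Q * L = phi n := by rw [hCf, hQL, mul_assoc]
  have hz := ncz n R Q L hn hRQL hk
  obtain ⟨hq0, hqd⟩ := rcn R Q hR hQ hz
  have hdiv : ∀ p ∈ n.primeFactors, 0 < n / p := by
    intro p hp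
    exact Nat.div_pos (Nat.le_of_dvd hn (Nat.dvd_of_mem_primeFactors hp))
      (Nat.pos_of_mem_primeFactors hp)
  have hmon : ∀ p ∈ n.primeFactors, (phi (n / p)).Monic := fun p hp =>
    (evi.2.2.1 (n / p) (hdiv p hp)).1
  obtain ⟨M, hM⟩ := hLd
  have hPm : (∏ p ∈ n.primeFactors, phi (n / p)).Monic := monic_prod_of_monic _ _ hmon
  have hMm : M.Monic := by
    rw [hM] at hPm
    exact hL.of_mul_monic_left hPm
  have hprod : resultant R L * resultant R M = ∏ p ∈ n.primeFactors, resultant R (phi (n / p)) := by
    rw [← res_mul _ _ _ hL hMm, ← hM, res_prod' R (fun p => phi (n / p)) _ hmon]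
  have hprod0 : ∏ p ∈ n.primeFactors, resultant R (phi (n / p)) ≠ 0 :=
    Finset.prod_ne_zero_iff.2 hres
  have hL0 : resultant R L ≠ 0 := by
    intro h0
    rw [h0, zero_mul] at hprod
    exact hprod0 hprod.symm
  have hM0 : resultant R M ≠ 0 := by
    intro h0
    rw [h0, mul_zero] at hprod
    exact hprod0 hprod.symm
  have hLdeg : 2 * (resultant R L).natDegree ≤ n.primeFactors.card * R.natDegree := by
    have h1 : (resultant R L).natDegree ≤
        (∏ p ∈ n.primeFactors, resultant R (phi (n / p))).natDegree := by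
      rw [← hprod, natDegree_mul hL0 hM0]
      exact Nat.le_add_right _ _
    rw [natDegree_prod _ _ hres] at h1
    calc 2 * (resultant R L).natDegree
        ≤ 2 * ∑ p ∈ n.primeFactors, (resultant R (phi (n / p))).natDegree :=
          Nat.mul_le_mul_left 2 h1
      _ = ∑ p ∈ n.primeFactors, 2 * (resultant R (phi (n / p))).natDegree := Finset.mul_sum _ _ _
      _ ≤ ∑ p ∈ n.primeFactors, R.natDegree := Finset.sum_le_sum fun p hp =>
          low n (n / p) R hn (hdiv p hp) hR hdvd (hres p hp)
      _ = n.primeFactors.card * R.natDegree := by rw [Finset.sum_const, smul_eq_mul]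
  have hP : resultant R Cf = resultant R Q * resultant R L := by
    rw [hQL, res_mul _ _ _ hQ hL]
  have hP0 : resultant R Cf ≠ 0 := by
    rw [hP]
    exact mul_ne_zero hq0 hL0
  have hPd : (resultant R Cf).natDegree = (resultant R L).natDegree := by
    rw [hP, natDegree_mul hq0 hL0, hqd, zero_add]
  rcases Nat.lt_or_ge m n with hmn | hmn
  · have hb := (grl (resultant R Cf) hP0).2.1 (2 ^ R.natDegree * 3 ^ (R.natDegree ^ 2))
      ((n - m) * R.natDegree) (by
        intro s hs
        have h1 := dis n m R Cf hn hR hCf.symm hm s hs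
        have hs0 : (0 : ℝ) < s := by linarith
        rw [div_pow, div_le_iff₀ (by positivity), ← pow_mul] at h1
        have h2 : s ^ (n * R.natDegree) = s ^ ((n - m) * R.natDegree) * s ^ (m * R.natDegree) := by
          rw [← pow_add, ← Nat.add_mul, Nat.sub_add_cancel hmn.le]
        rw [h2] at h1
        have h3 : (0 : ℝ) < s ^ (m * R.natDegree) := by positivity
        have h4 : s ^ ((n - m) * R.natDegree) * s ^ (m * R.natDegree)
            ≤ (2 ^ R.natDegree * 3 ^ (R.natDegree ^ 2)
              * ‖(resultant R Cf).eval (-(s : ℂ) ^ 2)‖) * s ^ (m * R.natDegree) := by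
          refine h1.trans (le_of_eq ?_)
          ring
        exact le_of_mul_le_mul_right h4 h3)
    rw [hPd] at hb
    have h5 := hb.trans hLdeg
    have h6 := Nat.le_of_mul_le_mul_right h5 he
    omega
  · omega

end Pool.Agent.EDG.H77
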